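import Pool.Agent.Y97.FD.Thm

/-!
# The standard conjecture of Hodge type for the cube of a variety controls all its powers

Let `X` be a variety with a divisor which satisfies the assumptions of the problem, and let
`m + 1 ≥ 3`. If the standard conjecture of Hodge type holds for `X ^ (m + 1)`, it holds, on every
power of `X`, for all the classes which are generated by the classes of algebraic cycles on
`X ^ (m + 1)`.
-/

open CategoryTheory AlgebraicGeometry

universe u v

namespace Pool.Agent.Results.MP_ffcd14_ag.CubeGenerates

open Pool.Agent.H914 Pool.Agent.H281R3.HT Pool.Agent.W539.Ker Pool.Agent.Y97 Pool.Agent.Y97.FD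

/-- **The standard conjecture of Hodge type for the classes generated by the cycles on one
power.** -/
theorem result {k : Type u} [Field k] {𝒱 : VarClass k} {ops : CycleOps 𝒱}
    (W : WeilCohomology.{u, v} ops) (P : Polarized 𝒱) (hP : Good W P) (m : ℕ) (hm : 2 ≤ m)
    (hH : HodgeNum W (power ops P m).X (power ops P m).D) (s n : ℕ)
    (hn : 2 * n ≤ (power ops P s).X.dim) (z : (power ops P s).X.Cycles)
    (hz : Primitive W (power ops P s).X (power ops P s).D n z)
    (hgen : Gen W P m s (W.cl (power ops P s).X z))
    (hne : ∃ w, (power ops P s).X.IsCyc ((power ops P s).X.dim - n) w ∧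
      (power ops P s).X.V.degCycle (ops.mul z w) ≠ 0) :
    0 < pairing ops (power ops P s).X (power ops P s).D n z z :=
  gen_hodge W P hP hm hH hn hz hgen hne

end Pool.Agent.Results.MP_ffcd14_ag.CubeGenerates
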