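import Pool.Agent.Y138.KH.Main

/-!
# The standard conjecture of Hodge type for powers of K3 surfaces over finite fields

Let `X` be a K3 surface of finite height `h` and Picard number `ρ` over an algebraic closure of the
field with `p` elements. Over a large finite field with `q` elements its transcendental cohomology in
degree two, of dimension `22 - ρ`, is the sum of eigenspaces of Frobenius, of the same dimension `r`,
for the conjugates of a number `q α`, where `α` and all its powers generate a CM field `E` of degree
`2 d = (22 - ρ) / r`, all complex absolute values of `α` are one, and the `p`-adic embeddings of `E`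
with `|α| > 1` belong to one place, of local degree `m = h / r` (`IsK3Frobenius`; the Picard number
of a K3 surface over a finite field is even and at least two, so `d ≤ 10`). In the theorem `X` may be
any variety with cohomology of this type (`HasWeilNumber`; the number `e` is the degree of an
extension of the field of definition). For K3 surfaces the Tate conjecture for `X` and `X × X` is
known (Charles, Madapusi Pera, Kim and Madapusi Pera; Ito, Ito and Koshikawa), and the standard
conjecture of Hodge type for `X × X` is known (Ito, Ito and Koshikawa). This is the assumption `hH2`.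

**Theorem.** Let `n + 1 ≤ 3` and let `(d, m)` be different from the nine pairs `(3, 2), (6, 2), (6, 3),
(6, 4), (9, 2), (9, 4), (9, 6), (10, 4), (10, 6)`; or let `n` be arbitrary and `m` odd (for example
let the height `h` be odd), and `(d, m)` different from the four pairs `(6, 3), (9, 3), (10, 3),
(10, 5)`. Then:

* the standard conjecture of Hodge type holds for `X ^ (n + 1)`, for all divisors
  `D 0 ⊞ D 1 ⊞ ⋯ ⊞ D n` (with the hard Lefschetz theorem, for example ample ones), with homological
  equivalence;
* for **all** smooth projective varieties `U` such that the field `L` which determines the slopes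
  of `U` is independent of `E`, and **all** divisors `B` on `U` with the hard Lefschetz theorem,
  the standard conjecture of Hodge type holds for `X ^ (n + 1) × U` and the sum of the divisors if
  and only if it holds for `U` and `B`. Nothing else is assumed on `U`.

So the standard conjecture of Hodge type holds for **all powers** of all K3 surfaces of odd height over
finite fields, except possibly if `(ρ, h)` is one of `(10, 3), (4, 3), (2, 3), (2, 5)`.
-/

set_option autoImplicit false

open CategoryTheory AlgebraicGeometry NumberField

universe u v

namespace Pool.Agent.Results.MP_ffcd14_ag.PowersOfK3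

open Pool.Agent.H914 Pool.Agent.W534 Pool.Agent.TH121.KT Pool.Agent.W517.K3 Pool.Agent.W552
  Pool.Agent.H281R3.HT Pool.Agent.Y138.KC Pool.Agent.Y138.KH VarClass Obj WeilCohomology

/-- **The standard conjecture of Hodge type for powers of K3 surfaces, and for their products with
all independent varieties.** -/
theorem result {k : Type u} [Field k] {𝒱 : VarClass k} {ops : CycleOps 𝒱}
    (W : WeilCohomology.{u, v} ops) [IsAlgClosed W.K] (p : ℕ) [Fact p.Prime]
    (Φ : FrobSystem W p) (ι : AlgebraicClosure ℚ →+* PadicAlgCl p) (X : 𝒱.Obj)
    (E : Type) [Field E] [NumberField E] [IsCMField E] (a e : ℕ) (α : E)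
    (hα : IsK3Frobenius p a α) (hX : HasWeilNumber Φ X e α) (d : ℕ)
    (hd : Module.finrank ℚ E = 2 * d) (hd10 : d ≤ 10) (n : ℕ)
    (hex : (n + 1 ≤ 3 ∧ (d, localDegree p α) ∉ exceptionalPairs) ∨
      (Odd (localDegree p α) ∧ (d, localDegree p α) ∉ exceptionalOddPairs))
    (D : Fin (n + 1) → X.Cycles) (hD : ∀ i, X.IsCyc 1 (D i))
    (hdeg : ∀ i, 0 < X.V.degCycle (divPow ops (D i) X.dim X.V.fundCycle))
    (hHL : ∀ i, HardLefschetz W X (D i))
    (hH2 : ∀ i j, HodgeType W ((⟨X, D i⟩ : Polarized 𝒱).prod ops ⟨X, D j⟩).X
      ((⟨X, D i⟩ : Polarized 𝒱).prod ops ⟨X, D j⟩).D) :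
    HodgeType W (nest ops n fun i => ⟨X, D i⟩).X (nest ops n fun i => ⟨X, D i⟩).D ∧
    ∀ L : IntermediateField ℚ (AlgebraicClosure ℚ), IsIndependentField E L →
      ∀ U : Polarized 𝒱, FrobeniusSlopes Φ ι L U.X → U.X.IsCyc 1 U.D → HardLefschetz W U.X U.D →
        (HodgeType W ((nest ops n fun i => ⟨X, D i⟩).prod ops U).X
            ((nest ops n fun i => ⟨X, D i⟩).prod ops U).D ↔
          HodgeType W U.X U.D) := by
  have hgood : Good d (localDegree p α) (n + 1) := ⟨hd10, hex⟩
  have hgood2 : Good d (localDegree p α) 2 :=
    ⟨hd10, hex.imp_left fun h => ⟨by norm_num, h.2⟩⟩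
  have hH := hodge_powers ι hα hd rfl hgood hgood2 hX hD hdeg hHL hH2
  exact ⟨hH, fun L hL U hU hB hUL =>
    hodge_powers_times hα hd rfl hgood hX hD hdeg hHL hH hL hU hB hUL⟩

end Pool.Agent.Results.MP_ffcd14_ag.PowersOfK3
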