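import Pool.Agent.Y137.HT.Main

/-!
# The standard conjecture of Hodge type for products of any number of varieties with bounded Betti
numbers over finite fields

Let `B` and `W` be natural numbers. There is a number `D`, which depends only on `B` and `W`, such
that for every prime number `p` the following is true. Let `𝒳` be a class of smooth projective
varieties over finite fields of characteristic `p`, each with an ample divisor and a degree `w ≤ W`,
such that the primitive part `P ^ w` of the cohomology in degree `w` has dimension at most `B` and
semisimple Frobenius, and such that the Lefschetz standard conjecture holds. Suppose that the Tate
conjecture and the standard conjecture of Hodge type hold for the products of at most one member `X`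
of `𝒳` and of polarized abelian varieties `A 1, …, A r` with
`dim P ^ w (X) + 2 dim A 1 + ⋯ + 2 dim A r ≤ D` (for the classes in
`P ^ w (X) ⊗ H ^ 1 (A 1) ⊗ ⋯ ⊗ H ^ 1 (A r)`). Then the Tate conjecture and the standard conjectures
`D` and of Hodge type hold for the products of **any number** of members of `𝒳` and of polarized
abelian varieties of any dimension whose simple factors over an algebraic closure have dimension at
most `B / 2` (for the classes in the tensor product of the primitive parts).

So, for instance, there is an absolute constant `D` such that the standard conjecture of Hodge type for
all products of K3 surfaces over all finite fields follows from the conjectures of Tate and of Hodge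
type for the products of at most one K3 surface and of an abelian variety of dimension at most `D`;
and for all `g` there is a `D` such that the conjectures of Tate and of Hodge type for abelian varieties
of dimension at most `D` over finite fields imply these conjectures for all abelian varieties over
finite fields with simple factors of dimension at most `g`.

The classes are given by their coordinates with respect to eigenvectors of the Frobenius endomorphisms;
the algebraic classes are any system `CycleSystem` of rational subspaces with the formal properties of
algebraic cycles (exterior products, push-forward, action of the Frobenius endomorphisms of the
factors, rational and symmetric intersection numbers, and the theorems of Tate and Weil on divisors on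
products of two abelian varieties).

The proof: on the eigenspace of a tuple of Frobenius eigenvalues the intersection form gives a hermitian
form, whose definiteness is multiplicative in tuples; all tuples which belong to Tate classes are
generated by short ones by joining tuples and by cancelling pairs `α, q / α` on abelian varieties
(`Y137.BG`).
-/

namespace Pool.Agent.Results.MP_ffcd14_ag.UnboundedProducts

open Pool.Agent.Y137.BG Pool.Agent.Y137.HT

/-- For all `B` and `W` there is `D` such that the Tate conjecture and the standard conjecture of Hodge
type for products of at most one member of a class of varieties with Betti number at most `B` and of
abelian varieties, of total dimension at most `D`, imply the Tate conjecture and the standard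
conjectures `D` and of Hodge type for products of any number of such varieties and of abelian varieties
with small simple factors. -/
theorem result (B W : ℕ) : ∃ D : ℕ, ∀ (p : ℕ) [Fact p.Prime] (𝒳 : Type) (H : 𝒳 → Frob),
    (∀ X, IsPure p B W (H X)) → ∀ 𝒮 : CycleSystem p H,
    (∀ (κ : Type) [Fintype κ] (Y : κ → AbVar p ⊕ 𝒳), AtMostOneVariety Y →
      ∑ k, Nat.card (frob H (Y k)).ι ≤ D → TateConj 𝒮 Y ∧ HodgeType 𝒮 Y) →
    ∀ (κ : Type) [Fintype κ] (Y : κ → AbVar p ⊕ 𝒳),
      (∀ k A, Y k = Sum.inl A → HasSmallFactors B A) →
      TateConj 𝒮 Y ∧ HomEqNum 𝒮 Y ∧ HodgeType 𝒮 Y :=
  main_hodge B W

end Pool.Agent.Results.MP_ffcd14_ag.UnboundedProducts
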