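import Pool.Agent.Y150.UF.Main

/-!
# The standard conjecture of Hodge type for uniruled fourfolds (helper150)
-/

set_option autoImplicit false

namespace Pool.Agent.Results.MP_ffcd14_ag.UniruledFourfolds

open Pool.Agent.Y150.UF

/-- Let `X` be a fourfold in the class generated by the projective line bundles over threefolds and
the fourfolds for which the standard conjecture of Hodge type holds for one ample class, under
blow-ups and generically finite images. Then the standard conjecture of Hodge type (for cycles of
codimension two modulo numerical equivalence) holds for `X` and all ample classes. -/
theorem result (X : Fourfold) (h : Generated X) (L : X.N) (hL : L ∈ X.ample) : X.Hodge L :=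
  hodge_of_generated h hL

end Pool.Agent.Results.MP_ffcd14_ag.UniruledFourfolds
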